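import Pool.Agent.TH304.MI.Stm
import Mathlib.MeasureTheory.Integral.IntervalIntegral.LebesgueDifferentiationThm
import Mathlib.Analysis.Calculus.LineDeriv.IntegrationByParts

/-!
# Project MI: Lebesgue points and zero divergence
-/

set_option autoImplicit false

open MeasureTheory Set Metric Filter Topology
open scoped ENNReal Real

noncomputable section

namespace Pool.Agent.TH399.MI

open Pool.Agent.TH304.MI

theorem t_leb (hpol : S_pol) : S_leb := by
  intro A hA hA1
  obtain ⟨hm, hb, -⟩ := hpol A hA hA1 (fun _ => 0) measurable_const (by simp)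
  have hloc : LocallyIntegrable (al A) volume := by
    have h1 : LocallyIntegrable (fun _ : ℝ => 2 * π) volume := locallyIntegrable_const _
    refine h1.mono hm.aestronglyMeasurable (Eventually.of_forall fun r => ?_)
    rw [Real.norm_eq_abs, Real.norm_eq_abs, abs_of_nonneg (hb r).1,
      abs_of_nonneg (by positivity)]
    exact (hb r).2
  have hint : ∀ x y : ℝ, IntervalIntegrable (al A) volume x y := fun x y =>
    intervalIntegrable_iff.mpr <|
      (hloc.integrableOn_isCompact isCompact_uIcc).mono_set uIoc_subset_uIcc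
  filter_upwards [_root_.LocallyIntegrable.ae_hasDerivAt_integral hloc] with r hr
  have h1 := (hasDerivAt_iff_tendsto_slope_zero.mp (hr 0)).mono_left
    (nhdsWithin_mono (0 : ℝ) (fun x (hx : 0 < x) => (ne_of_gt hx : x ≠ 0)) : 𝓝[>] (0 : ℝ) ≤ 𝓝[≠] 0)
  refine h1.congr fun η => ?_
  rw [smul_eq_mul, intervalIntegral.integral_interval_sub_left (hint _ _) (hint _ _)]

theorem zero_int (Z : ℂ → ℂ) (h1 : ContDiff ℝ 1 Z) (h2 : HasCompactSupport Z) (v : ℂ) :
    ∫ z, fderiv ℝ Z z v = 0 := by
  have hc : Continuous fun z => fderiv ℝ Z z v :=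
    (h1.continuous_fderiv (by norm_num)).clm_apply continuous_const
  have hs : HasCompactSupport fun z => fderiv ℝ Z z v := h2.fderiv_apply ℝ v
  have hi : Integrable fun z => fderiv ℝ Z z v := hc.integrable_of_hasCompactSupport hs
  have hZ : Integrable Z := h1.continuous.integrable_of_hasCompactSupport h2
  have key := integral_mul_fderiv_eq_neg_fderiv_mul_of_integrable (μ := (volume : Measure ℂ))
    (f := fun _ : ℂ => (1 : ℂ)) (g := Z) (v := v) (by simp) (by simpa using hi)
    (by simpa using hZ) (fun x _ => differentiableAt_const _)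
    (fun x _ => (h1.differentiable (by norm_num)) x)
  simpa using key

theorem t_dz : S_dz := by
  intro b Z hZ
  have h1 : ∫ z in D1, dv2 Z z = ∫ z, dv2 Z z := by
    apply setIntegral_eq_integral_of_forall_compl_eq_zero
    intro z hz
    have h2 : z ∉ tsupport Z := fun h => hz (hZ.sub h)
    have h3 : fderiv ℝ Z z = 0 := by
      have h4 : z ∉ tsupport (fderiv ℝ Z) := fun h => h2 (tsupport_fderiv_subset ℝ h)
      exact image_eq_zero_of_notMem_tsupport h4
    simp [dv2, h3]
  have hi : ∀ v : ℂ, Integrable fun z => fderiv ℝ Z z v := fun v =>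
    ((hZ.cd.continuous_fderiv (by norm_num)).clm_apply
      continuous_const).integrable_of_hasCompactSupport (hZ.cs.fderiv_apply ℝ v)
  have hre : ∫ z, (fderiv ℝ Z z 1).re = 0 := by
    have h2 := integral_re (hi 1)
    have h3 := zero_int Z hZ.cd hZ.cs 1
    rw [h3] at h2
    simpa using h2
  have him : ∫ z, (fderiv ℝ Z z Complex.I).im = 0 := by
    have h2 := integral_im (hi Complex.I)
    have h3 := zero_int Z hZ.cd hZ.cs Complex.I
    rw [h3] at h2
    simpa using h2
  have hadd : ∫ z, ((fderiv ℝ Z z 1).re + (fderiv ℝ Z z Complex.I).im) =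
      (∫ z, (fderiv ℝ Z z 1).re) + ∫ z, (fderiv ℝ Z z Complex.I).im :=
    integral_add (hi 1).re (hi Complex.I).im
  rw [h1]
  unfold dv2
  rw [hadd, hre, him, add_zero]

end Pool.Agent.TH399.MI
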