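import Pool.Agent.TH304.MI.Stm

/-!
# Project MI: polar coordinates and complements
-/

set_option autoImplicit false

open MeasureTheory Set Metric Filter Topology
open scoped ENNReal Real

noncomputable section

namespace Pool.Agent.TH399.MI

open Pool.Agent.TH304.MI

/-- the section of `A` by the circle of radius `r` -/
def sec (A : Set ℂ) (r : ℝ) : Set ℝ :=
  {θ : ℝ | θ ∈ Ioo (-π) π ∧ (r : ℂ) * Complex.exp (θ * Complex.I) ∈ A}

theorem al_eq (A : Set ℂ) (r : ℝ) : al A r = (volume (sec A r)).toReal := rfl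

theorem meas_prod (A : Set ℂ) (hA : MeasurableSet A) :
    MeasurableSet {p : ℝ × ℝ | p.2 ∈ Ioo (-π) π ∧
      (p.1 : ℂ) * Complex.exp (p.2 * Complex.I) ∈ A} := by
  have h1 : Measurable fun p : ℝ × ℝ => (p.1 : ℂ) * Complex.exp (p.2 * Complex.I) := by
    fun_prop
  exact (measurableSet_Ioo.preimage measurable_snd).inter (h1 hA)

theorem meas_sec (A : Set ℂ) (hA : MeasurableSet A) (r : ℝ) : MeasurableSet (sec A r) := by
  have h1 : Measurable fun θ : ℝ => (r : ℂ) * Complex.exp (θ * Complex.I) := by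
    fun_prop
  exact measurableSet_Ioo.inter (h1 hA)

theorem meas_al (A : Set ℂ) (hA : MeasurableSet A) : Measurable (al A) := by
  have h1 : Measurable fun r : ℝ => volume (sec A r) := by
    have h2 := measurable_measure_prodMk_left (ν := (volume : Measure ℝ)) (meas_prod A hA)
    exact h2
  exact h1.ennreal_toReal

theorem vol_Ioo : volume (Ioo (-π) π) = ENNReal.ofReal (2 * π) := by
  rw [Real.volume_Ioo]
  congr 1
  ring

theorem sec_le (A : Set ℂ) (r : ℝ) : volume (sec A r) ≤ ENNReal.ofReal (2 * π) := by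
  rw [← vol_Ioo]
  exact measure_mono fun θ h => h.1

theorem al_bd (A : Set ℂ) (r : ℝ) : 0 ≤ al A r ∧ al A r ≤ 2 * π := by
  refine ⟨ENNReal.toReal_nonneg, ?_⟩
  rw [al_eq]
  exact ENNReal.toReal_le_of_le_ofReal (by positivity) (sec_le A r)

theorem norm_pt (r θ : ℝ) (hr : 0 ≤ r) : ‖(r : ℂ) * Complex.exp (θ * Complex.I)‖ = r := by
  rw [norm_mul, Complex.norm_exp_ofReal_mul_I, mul_one, Complex.norm_real, Real.norm_eq_abs,
    abs_of_nonneg hr]

theorem symm_eq (p : ℝ × ℝ) :
    Complex.polarCoord.symm p = (p.1 : ℂ) * Complex.exp (p.2 * Complex.I) := by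
  rw [Complex.polarCoord_symm_apply, Complex.exp_mul_I]
  push_cast
  ring

theorem t_pol : S_pol := by
  intro A hA hA1 g hg hi
  refine ⟨meas_al A hA, al_bd A, ?_⟩
  set f : ℂ → ℝ := A.indicator fun z => g ‖z‖ with hf
  have hfm : Measurable f := (hg.comp measurable_norm).indicator hA
  have hfi : Integrable f := by
    rw [hf, integrable_indicator_iff hA]
    exact hi.mono_set hA1
  have hFm : Measurable fun p : ℝ × ℝ => p.1 • f (Complex.polarCoord.symm p) := by
    have h1 : Measurable fun p : ℝ × ℝ => (p.1 : ℂ) * Complex.exp (p.2 * Complex.I) := by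
      fun_prop
    have h2 : (fun p : ℝ × ℝ => p.1 • f (Complex.polarCoord.symm p)) =
        fun p : ℝ × ℝ => p.1 * f ((p.1 : ℂ) * Complex.exp (p.2 * Complex.I)) := by
      funext p
      rw [symm_eq, smul_eq_mul]
    rw [h2]
    exact measurable_fst.mul (hfm.comp h1)
  have hFi : IntegrableOn (fun p : ℝ × ℝ => p.1 • f (Complex.polarCoord.symm p))
      polarCoord.target := by
    refine ⟨hFm.aestronglyMeasurable, ?_⟩
    rw [hasFiniteIntegral_iff_enorm]
    have h1 := Complex.lintegral_comp_polarCoord_symm (fun z => ‖f z‖ₑ)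
    have h2 : ∫⁻ p in polarCoord.target, ‖p.1 • f (Complex.polarCoord.symm p)‖ₑ =
        ∫⁻ p in polarCoord.target, ENNReal.ofReal p.1 • ‖f (Complex.polarCoord.symm p)‖ₑ := by
      apply setLIntegral_congr_fun polarCoord.open_target.measurableSet
      intro p hp
      have hp1 : 0 < p.1 := by
        rw [polarCoord_target] at hp
        exact hp.1
      simp only
      rw [enorm_smul, smul_eq_mul, Real.enorm_of_nonneg hp1.le]
    rw [h2, h1]
    exact hfi.2
  rw [← integral_indicator hA]
  have h3 := Complex.integral_comp_polarCoord_symm f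
  rw [← hf, ← h3, polarCoord_target]
  rw [polarCoord_target] at hFi
  rw [Measure.volume_eq_prod, setIntegral_prod _ (by rwa [← Measure.volume_eq_prod])]
  have h4 : ∀ r : ℝ, 0 < r → ∫ θ in Ioo (-π) π, (r, θ).1 • f (Complex.polarCoord.symm (r, θ)) =
      g r * r * al A r := by
    intro r hr
    have h5 : ∀ θ : ℝ, θ ∈ Ioo (-π) π → (r, θ).1 • f (Complex.polarCoord.symm (r, θ)) =
        (sec A r).indicator (fun _ => r * g r) θ := by
      intro θ hθ
      rw [symm_eq, hf, smul_eq_mul]
      by_cases h : (r : ℂ) * Complex.exp (θ * Complex.I) ∈ A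
      · have h6 : θ ∈ sec A r := ⟨hθ, h⟩
        simp only
        rw [indicator_of_mem h, indicator_of_mem h6, norm_pt r θ hr.le]
      · have h6 : θ ∉ sec A r := fun h7 => h h7.2
        simp only
        rw [indicator_of_notMem h, indicator_of_notMem h6, mul_zero]
    rw [setIntegral_congr_fun measurableSet_Ioo h5, integral_indicator (meas_sec A hA r)]
    rw [Measure.restrict_restrict (meas_sec A hA r)]
    have h7 : sec A r ∩ Ioo (-π) π = sec A r := inter_eq_left.mpr fun θ h => h.1
    rw [h7, setIntegral_const, al_eq, smul_eq_mul, measureReal_def]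
    ring
  have h8 : ∫ r in Ioi (0 : ℝ), ∫ θ in Ioo (-π) π,
      (r, θ).1 • f (Complex.polarCoord.symm (r, θ)) = ∫ r in Ioi (0 : ℝ), g r * r * al A r :=
    setIntegral_congr_fun measurableSet_Ioi fun r hr => h4 r hr
  rw [h8]
  apply setIntegral_eq_of_subset_of_forall_sdiff_eq_zero measurableSet_Ioi
    (fun r hr => hr.1)
  intro r hr
  have hr1 : 1 ≤ r := by
    by_contra h
    exact hr.2 ⟨hr.1, not_le.mp h⟩
  have h9 : sec A r = ∅ := by
    ext θ
    simp only [mem_empty_iff_false, iff_false]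
    intro h
    have h10 := hA1 h.2
    rw [D1, mem_ball_zero_iff, norm_pt r θ (by linarith)] at h10
    linarith
  rw [al_eq, h9]
  simp

theorem t_alc : S_alc := by
  intro A hA _ r hr
  have h1 : sec (D1 \ A) r = Ioo (-π) π \ sec A r := by
    ext θ
    constructor
    · intro h
      exact ⟨h.1, fun h2 => h.2.2 h2.2⟩
    · intro h
      refine ⟨h.1, ?_, fun h2 => h.2 ⟨h.1, h2⟩⟩
      rw [D1, mem_ball_zero_iff, norm_pt r θ hr.1.le]
      exact hr.2
  have h2 : volume (sec A r) ≠ ∞ := ne_top_of_le_ne_top ENNReal.ofReal_ne_top (sec_le A r)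
  rw [al_eq, h1, measure_sdiff (fun θ h => h.1) (meas_sec A hA r).nullMeasurableSet h2,
    ENNReal.toReal_sub_of_le (measure_mono fun θ h => h.1) (by rw [vol_Ioo]; exact
      ENNReal.ofReal_ne_top), vol_Ioo, ENNReal.toReal_ofReal (by positivity), al_eq]

end Pool.Agent.TH399.MI
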